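import Pool.Agent.H48.RN.Stmts3

/-!
# Project RN: the common part of the modules RN2 and RN3
-/

set_option autoImplicit false

namespace Pool.RN.Root

open Polynomial

section Lead

variable {F : Type} [Field F]

/-- `f` has degree at most `k` and `c` is its coefficient of degree `k`. -/
def Hd (k : ℕ) (f : F[X]) (c : F) : Prop := f.natDegree ≤ k ∧ f.coeff k = c

theorem Hd.mul {k l m : ℕ} {f g : F[X]} {c d : F} (hf : Hd k f c) (hg : Hd l g d)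
    (hm : k + l = m) : Hd m (f * g) (c * d) := by
  subst hm
  refine ⟨natDegree_mul_le_of_le hf.1 hg.1, ?_⟩
  rw [coeff_mul_add_eq_of_natDegree_le hf.1 hg.1, hf.2, hg.2]

theorem Hd.pow {k : ℕ} {f : F[X]} {c : F} (hf : Hd k f c) (n : ℕ) :
    ∀ {m : ℕ}, n * k = m → Hd m (f ^ n) (c ^ n) := by
  induction n with
  | zero =>
    intro m hm
    simp only [zero_mul] at hm
    subst hm
    simp [Hd]
  | succ n ih =>
    intro m hm
    rw [pow_succ, pow_succ]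
    refine Hd.mul (ih rfl) hf ?_
    rw [← hm]; ring

theorem Hd.add {k : ℕ} {f g : F[X]} {c d : F} (hf : Hd k f c) (hg : Hd k g d) :
    Hd k (f + g) (c + d) :=
  ⟨(natDegree_add_le _ _).trans (max_le hf.1 hg.1), by rw [coeff_add, hf.2, hg.2]⟩

theorem Hd.sub {k : ℕ} {f g : F[X]} {c d : F} (hf : Hd k f c) (hg : Hd k g d) :
    Hd k (f - g) (c - d) :=
  ⟨(natDegree_sub_le _ _).trans (max_le hf.1 hg.1), by rw [coeff_sub, hf.2, hg.2]⟩

theorem Hd.neg {k : ℕ} {f : F[X]} {c : F} (hf : Hd k f c) : Hd k (-f) (-c) :=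
  ⟨by rw [natDegree_neg]; exact hf.1, by rw [coeff_neg, hf.2]⟩

theorem Hd.nat (m : ℕ) : Hd 0 ((m : ℕ) : F[X]) (m : F) :=
  ⟨by simp, by simp⟩

theorem Hd.ofNat (m : ℕ) [m.AtLeastTwo] : Hd 0 ((OfNat.ofNat m : F[X])) (OfNat.ofNat m : F) :=
  Hd.nat m

/-- The hypotheses on the degrees. -/
theorem hd_b₂ {n : ℕ} {W : WeierstrassCurve F[X]} (h1 : W.a₁.natDegree ≤ n)
    (h2 : W.a₂.natDegree ≤ 2 * n) : Hd (2 * n) W.b₂ (redInf n W).b₂ := by
  have e1 : Hd n W.a₁ (redInf n W).a₁ := ⟨h1, rfl⟩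
  have e2 : Hd (2 * n) W.a₂ (redInf n W).a₂ := ⟨h2, rfl⟩
  unfold WeierstrassCurve.b₂
  exact (e1.pow 2 rfl).add ((Hd.ofNat 4).mul e2 (by ring))

theorem hd_b₄ {n : ℕ} {W : WeierstrassCurve F[X]} (h1 : W.a₁.natDegree ≤ n)
    (h3 : W.a₃.natDegree ≤ 3 * n) (h4 : W.a₄.natDegree ≤ 4 * n) :
    Hd (4 * n) W.b₄ (redInf n W).b₄ := by
  have e1 : Hd n W.a₁ (redInf n W).a₁ := ⟨h1, rfl⟩
  have e3 : Hd (3 * n) W.a₃ (redInf n W).a₃ := ⟨h3, rfl⟩
  have e4 : Hd (4 * n) W.a₄ (redInf n W).a₄ := ⟨h4, rfl⟩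
  unfold WeierstrassCurve.b₄
  exact ((Hd.ofNat 2).mul e4 (by ring)).add (e1.mul e3 (by ring))

theorem hd_b₆ {n : ℕ} {W : WeierstrassCurve F[X]}
    (h3 : W.a₃.natDegree ≤ 3 * n) (h6 : W.a₆.natDegree ≤ 6 * n) :
    Hd (6 * n) W.b₆ (redInf n W).b₆ := by
  have e3 : Hd (3 * n) W.a₃ (redInf n W).a₃ := ⟨h3, rfl⟩
  have e6 : Hd (6 * n) W.a₆ (redInf n W).a₆ := ⟨h6, rfl⟩
  unfold WeierstrassCurve.b₆
  exact (e3.pow 2 (by ring)).add ((Hd.ofNat 4).mul e6 (by ring))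

theorem hd_b₈ {n : ℕ} {W : WeierstrassCurve F[X]} (h1 : W.a₁.natDegree ≤ n)
    (h2 : W.a₂.natDegree ≤ 2 * n)
    (h3 : W.a₃.natDegree ≤ 3 * n) (h4 : W.a₄.natDegree ≤ 4 * n) (h6 : W.a₆.natDegree ≤ 6 * n) :
    Hd (8 * n) W.b₈ (redInf n W).b₈ := by
  have e1 : Hd n W.a₁ (redInf n W).a₁ := ⟨h1, rfl⟩
  have e2 : Hd (2 * n) W.a₂ (redInf n W).a₂ := ⟨h2, rfl⟩
  have e3 : Hd (3 * n) W.a₃ (redInf n W).a₃ := ⟨h3, rfl⟩
  have e4 : Hd (4 * n) W.a₄ (redInf n W).a₄ := ⟨h4, rfl⟩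
  have e6 : Hd (6 * n) W.a₆ (redInf n W).a₆ := ⟨h6, rfl⟩
  unfold WeierstrassCurve.b₈
  refine ((((Hd.mul (e1.pow 2 rfl) e6 (by ring)).add ?_).sub ?_).add ?_).sub (e4.pow 2 (by ring))
  · exact ((Hd.ofNat 4).mul e2 rfl).mul e6 (by ring)
  · exact (e1.mul e3 rfl).mul e4 (by ring)
  · exact e2.mul (e3.pow 2 rfl) (by ring)

theorem hd_Δ {n : ℕ} {W : WeierstrassCurve F[X]} (h1 : W.a₁.natDegree ≤ n)
    (h2 : W.a₂.natDegree ≤ 2 * n)
    (h3 : W.a₃.natDegree ≤ 3 * n) (h4 : W.a₄.natDegree ≤ 4 * n) (h6 : W.a₆.natDegree ≤ 6 * n) :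
    Hd (12 * n) W.Δ (redInf n W).Δ := by
  have b2 := hd_b₂ h1 h2
  have b4 := hd_b₄ h1 h3 h4
  have b6 := hd_b₆ h3 h6
  have b8 := hd_b₈ h1 h2 h3 h4 h6
  unfold WeierstrassCurve.Δ
  refine (((Hd.mul (b2.pow 2 rfl).neg b8 (by ring)).sub ?_).sub ?_).add ?_
  · exact (Hd.ofNat 8).mul (b4.pow 3 rfl) (by ring)
  · exact (Hd.ofNat 27).mul (b6.pow 2 rfl) (by ring)
  · exact (((Hd.ofNat 9).mul b2 rfl).mul b4 rfl).mul b6 (by ring)

end Lead

section Core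

variable {F : Type} [Field F] [Fintype F]

/-- The common part. -/
theorem core (hLC0 : S_LC0) (n : ℕ) (hn : 1 ≤ n) (W : WeierstrassCurve F[X]) (hW : W ∈ Fam F n)
    (c : F[X] → ℂ) (w : ℂ)
    (hfin : ∀ P : F[X], P.Monic → Irreducible P → P ∣ W.Δ → ¬ P ∣ W.c₄ →
      (SplitNode (W.map (AdjoinRoot.mk P)) → c P = 1) ∧
      (¬ SplitNode (W.map (AdjoinRoot.mk P)) → c P = -1))
    (hinf : (redInf n W).Δ = 0 → (SplitNode (redInf n W) → w = -1) ∧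
      (¬ SplitNode (redInf n W) → w = 1)) :
    ((rootNumber n W : ℤ) : ℂ) = (if W.Δ.natDegree = 12 * n then 1 else w) * wf c W.Δ := by
  classical
  obtain ⟨h1, h2, h3, h4, h6, hcop, hc4⟩ := hW
  have hd := hd_Δ h1 h2 h3 h4 h6
  have hΔ : W.Δ ≠ 0 := by
    intro h0
    rw [h0, isCoprime_zero_right] at hcop
    have := natDegree_eq_zero_of_isUnit hcop
    exact hc4 (coeff_eq_zero_of_natDegree_lt (by omega))
  -- the finite places
  have hset : {P : F[X] | P.Monic ∧ Irreducible P ∧ SplitNode (W.map (AdjoinRoot.mk P))} =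
      (((pf W.Δ).filter (fun P => c P = 1) : Finset F[X]) : Set F[X]) := by
    ext P
    simp only [Set.mem_ofPred_eq, Finset.coe_filter, mem_pf hΔ]
    have key : ∀ (hPm : P.Monic) (hPi : Irreducible P), P ∣ W.Δ → ¬ P ∣ W.c₄ := by
      intro hPm hPi hd hd'
      exact hPi.not_isUnit (hcop.isUnit_of_dvd' hd' hd)
    constructor
    · rintro ⟨hPm, hPi, hs⟩
      have h0 := hLC0 _ _ hs
      rw [WeierstrassCurve.map_Δ, AdjoinRoot.mk_eq_zero] at h0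
      exact ⟨⟨hPm, hPi, h0⟩, (hfin P hPm hPi h0 (key hPm hPi h0)).1 hs⟩
    · rintro ⟨⟨hPm, hPi, h0⟩, h⟩
      refine ⟨hPm, hPi, ?_⟩
      by_contra hs
      have := (hfin P hPm hPi h0 (key hPm hPi h0)).2 hs
      rw [h] at this
      norm_num at this
  have hwf : wf c W.Δ = (-1) ^ ((pf W.Δ).filter (fun P => c P = 1)).card := by
    unfold wf
    have : ∀ P ∈ pf W.Δ, - c P = if c P = 1 then -1 else 1 := by
      intro P hP
      rw [mem_pf hΔ] at hP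
      obtain ⟨hPm, hPi, h0⟩ := hP
      have hk : ¬ P ∣ W.c₄ := fun hd' => hPi.not_isUnit (hcop.isUnit_of_dvd' hd' h0)
      split_ifs with h
      · rw [h]
      · have := hfin P hPm hPi h0 hk
        by_cases hs : SplitNode (W.map (AdjoinRoot.mk P))
        · exact absurd (this.1 hs) h
        · rw [this.2 hs]; norm_num
    rw [Finset.prod_congr rfl this, Finset.prod_ite]
    simp
  have hi : ((-1 : ℂ) ^ (if SplitNode (redInf n W) then 1 else 0)) =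
      (if W.Δ.natDegree = 12 * n then 1 else w) := by
    by_cases hdeg : W.Δ.natDegree = 12 * n
    · have hne : (redInf n W).Δ ≠ 0 := by
        rw [← hd.2, ← hdeg]
        exact leadingCoeff_ne_zero.mpr hΔ
      have hns : ¬ SplitNode (redInf n W) := fun hs => hne (hLC0 _ _ hs)
      simp [hdeg, hns]
    · have h0 : (redInf n W).Δ = 0 := by
        rw [← hd.2]
        exact coeff_eq_zero_of_natDegree_lt (lt_of_le_of_ne hd.1 hdeg)
      rw [if_neg hdeg]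
      by_cases hs : SplitNode (redInf n W)
      · simp [hs, (hinf h0).1 hs]
      · simp [hs, (hinf h0).2 hs]
  unfold rootNumber splitPlaces
  rw [hset, Set.ncard_coe_finset]
  push_cast
  rw [pow_add, hwf, mul_comm]
  congr 1

end Core

end Pool.RN.Root
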