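import Pool.Agent.H24.RN.Core

/-!
# Project RN: module RN2
-/

set_option autoImplicit false

namespace Pool.RN

open Polynomial

theorem s_RN2 (F : Type) [Field F] [Fintype F] (hLC0 : S_LC0) (hLC2 : S_LC2) (hSY2 : S_SY2 F) :
    S_RN2 F := by
  classical
  intro h2 n a₁ a₂ a₃ M hn hdeg hM hM1 hM2
  by_cases hall : a₂.natDegree ≤ 2 * n ∧ a₃.natDegree ≤ 3 * n
  swap
  · refine ⟨1, 1, 1, ?_, Or.inl rfl, Or.inl rfl, ?_⟩
    · intro a ha
      left
      exact MulChar.one_apply ha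
    · intro a₄ a₆ hW
      exact absurd ⟨hW.2.1, hW.2.2.1⟩ hall
  have h2' : (2 : F[X]) = 0 := by
    have : (2 : F[X]) = C (2 : F) := (map_ofNat C 2).symm
    rw [this, h2, C_0]
  have h4' : (4 : F[X]) = 0 := by
    have : (4 : F[X]) = 2 * 2 := by norm_num
    rw [this, h2', zero_mul]
  have hD0 : a₁ ≠ 0 := by
    intro h0
    rw [h0, natDegree_zero] at hdeg
    omega
  have hDM : (a₁ ^ 3) ^ 2 ∣ M := by rw [← pow_mul]; exact hM1
  have hMd : 1 ≤ M.natDegree := by
    have h1 : a₁ ∣ M := (dvd_pow_self _ (by norm_num)).trans hM1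
    have := natDegree_le_of_dvd h1 hM.ne_zero
    omega
  obtain ⟨χ₀, l, hχ, hl, hP⟩ := hSY2 h2 (a₁ ^ 3) (a₁ * a₂ + a₃) M (pow_ne_zero _ hD0) hM hMd hDM
    (by
      rw [natDegree_pow, hdeg]
      refine (natDegree_add_le _ _).trans (max_le ?_ hall.2)
      exact (natDegree_mul_le_of_le hdeg.le hall.1).trans (by omega))
  refine ⟨χ₀, l, if (∃ z : F, (z ^ 2 + z) * (a₁.coeff n) ^ 3 = a₁.coeff n * a₂.coeff (2 * n) +
    a₃.coeff (3 * n)) then -1 else 1, hχ, hl, ?_, ?_⟩
  · split_ifs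
    · right; rfl
    · left; rfl
  intro a₄ a₆ hW
  have hb2 : (WeierstrassCurve.mk a₁ a₂ a₃ a₄ a₆).b₂ = a₁ ^ 2 := by
    unfold WeierstrassCurve.b₂
    simp [h4']
  apply Root.core hLC0 n hn _ hW
  · intro P hPm hPi hd hnd
    have hPD : ¬ P ∣ a₁ := by
      intro hPD
      apply hnd
      have : (WeierstrassCurve.mk a₁ a₂ a₃ a₄ a₆).c₄ = (a₁ ^ 2) ^ 2 := by
        have e : (24 : F[X]) = 0 := by
          have : (24 : F[X]) = 2 * 12 := by norm_num
          rw [this, h2', zero_mul]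
        unfold WeierstrassCurve.c₄
        rw [hb2, e, zero_mul, sub_zero]
      rw [this, ← pow_mul]
      exact hPD.trans (dvd_pow_self _ (by norm_num))
    have hPM : ¬ P ∣ M := by
      intro h
      exact hPD (hPi.prime.dvd_of_dvd_pow (h.trans hM2))
    have : Fact (Irreducible P) := ⟨hPi⟩
    have key := hLC2 (AdjoinRoot P) (by
      have : (2 : AdjoinRoot P) = AdjoinRoot.mk P 2 := (map_ofNat (AdjoinRoot.mk P) 2).symm
      rw [this, h2', map_zero]) ((WeierstrassCurve.mk a₁ a₂ a₃ a₄ a₆).map (AdjoinRoot.mk P))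
      (by rw [WeierstrassCurve.map_Δ, AdjoinRoot.mk_eq_zero]; exact hd)
      (by
        rw [WeierstrassCurve.map_a₁]
        intro h
        exact hPD (AdjoinRoot.mk_eq_zero.mp h))
    rw [key]
    have := hP P hPm hPi hPM
    simpa using this
  · intro h0
    have key := hLC2 F h2 (redInf n (WeierstrassCurve.mk a₁ a₂ a₃ a₄ a₆)) h0 (by
      change a₁.coeff n ≠ 0
      rw [← hdeg]
      exact leadingCoeff_ne_zero.mpr hD0)
    rw [key]
    constructor
    · intro h; exact if_pos h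
    · intro h; exact if_neg h

end Pool.RN
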