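import Pool.Agent.H24.RN.Core

/-!
# Project RN: module RN3
-/

set_option autoImplicit false

namespace Pool.RN

open Polynomial

theorem s_RN3 (F : Type) [Field F] [Fintype F] (hLC0 : S_LC0) (hLC3 : S_LC3) (hSY3 : S_SY3 F) :
    S_RN3 F := by
  classical
  intro h3 n a₁ a₂ a₃ M hn hdeg hM hM1 hM2
  have h2 : (2 : F) ≠ 0 := by
    intro h2
    have : (1 : F) = 3 - 2 := by norm_num
    rw [h2, h3, sub_zero] at this
    exact one_ne_zero this
  have h4 : (4 : F) = 1 := by
    have : (4 : F) = 3 + 1 := by norm_num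
    rw [this, h3, zero_add]
  have h3' : (3 : F[X]) = 0 := by
    have : (3 : F[X]) = C (3 : F) := (map_ofNat C 3).symm
    rw [this, h3, C_0]
  have h4' : (4 : F[X]) = 1 := by
    have : (4 : F[X]) = 3 + 1 := by norm_num
    rw [this, h3', zero_add]
  have hD0 : a₁ ^ 2 + a₂ ≠ 0 := by
    intro h0
    rw [h0, natDegree_zero] at hdeg
    omega
  have hDM : a₁ ^ 2 + a₂ ∣ M := (dvd_pow_self _ (by norm_num)).trans hM1
  have hMd : 1 ≤ M.natDegree := by
    have := natDegree_le_of_dvd hDM hM.ne_zero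
    omega
  obtain ⟨χ₀, l, hχ, hl, hP⟩ := hSY3 h2 (a₁ ^ 2 + a₂) M hD0 hM hMd hDM
  refine ⟨χ₀, l, if IsSquare ((a₁ ^ 2 + a₂).coeff (2 * n)) then -1 else 1, hχ, hl, ?_, ?_⟩
  · split_ifs
    · right; rfl
    · left; rfl
  intro a₄ a₆ hW
  have hb2 : (WeierstrassCurve.mk a₁ a₂ a₃ a₄ a₆).b₂ = a₁ ^ 2 + a₂ := by
    unfold WeierstrassCurve.b₂
    simp [h4']
  apply Root.core hLC0 n hn _ hW
  · intro P hPm hPi hd hnd
    have hPD : ¬ P ∣ a₁ ^ 2 + a₂ := by
      intro hPD
      apply hnd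
      have : (WeierstrassCurve.mk a₁ a₂ a₃ a₄ a₆).c₄ = (a₁ ^ 2 + a₂) ^ 2 := by
        have e : (24 : F[X]) = 0 := by
          have : (24 : F[X]) = 3 * 8 := by norm_num
          rw [this, h3', zero_mul]
        unfold WeierstrassCurve.c₄
        rw [hb2, e, zero_mul, sub_zero]
      rw [this]
      exact hPD.trans (dvd_pow_self _ (by norm_num))
    have hPM : ¬ P ∣ M := by
      intro h
      exact hPD (hPi.prime.dvd_of_dvd_pow (h.trans hM2))
    have : Fact (Irreducible P) := ⟨hPi⟩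
    have key := hLC3 (AdjoinRoot P) (by
      have : (3 : AdjoinRoot P) = AdjoinRoot.mk P 3 := (map_ofNat (AdjoinRoot.mk P) 3).symm
      rw [this, h3', map_zero]) ((WeierstrassCurve.mk a₁ a₂ a₃ a₄ a₆).map (AdjoinRoot.mk P))
      (by rw [WeierstrassCurve.map_Δ, AdjoinRoot.mk_eq_zero]; exact hd)
      (by
        rw [WeierstrassCurve.map_b₂, hb2]
        intro h
        exact hPD (AdjoinRoot.mk_eq_zero.mp h))
    rw [WeierstrassCurve.map_b₂, hb2] at key
    rw [key]
    exact hP P hPm hPi hPM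
  · intro h0
    have hd := Root.hd_b₂ hW.1 hW.2.1
    rw [hb2] at hd
    have key := hLC3 F h3 (redInf n (WeierstrassCurve.mk a₁ a₂ a₃ a₄ a₆)) h0 (by
      rw [← hd.2, ← hdeg]
      exact leadingCoeff_ne_zero.mpr hD0)
    rw [← hd.2] at key
    rw [key]
    constructor
    · intro h; exact if_pos h
    · intro h; exact if_neg h

end Pool.RN
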